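import Pool.Agent.Run7.h354.TF.LMEM

/-!
# Project TF (helper664), piece AMEM (helper354, second copy)
-/

set_option autoImplicit false

namespace Run7.h354.TF

open Run7.h664.FH

lemma lt_zero_one (c c' : C) : lt (cons false c) (cons true c') :=
  ⟨0, fun i hi => absurd hi (Nat.not_lt_zero i), rfl, rfl⟩

theorem t_AMEM : S_AMEM := by
  refine ⟨fun c => ?_, fun c c' hc => ?_⟩
  · obtain ⟨a, c1, rfl⟩ := cases_cons c
    obtain ⟨b, c2, rfl⟩ := cases_cons c1
    rcases a with _ | _
    · rcases b with _ | _
      · exact ⟨[false, false], [false], c2, rfl, fun _ => rfl⟩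
      · exact ⟨[false, true], [true, false], c2, rfl, fun _ => rfl⟩
    · exact ⟨[true], [true, true], cons b c2, rfl, fun _ => rfl⟩
  · obtain ⟨a, c1, rfl⟩ := cases_cons c
    obtain ⟨b, c2, rfl⟩ := cases_cons c1
    obtain ⟨a', c1', rfl⟩ := cases_cons c'
    obtain ⟨b', c2', rfl⟩ := cases_cons c1'
    rcases lt_cons_cases hc with ⟨h1, h2⟩ | ⟨h1, h2⟩
    · subst h1
      subst h2
      rcases b with _ | _
      · exact lt_zero_one _ _
      · exact lt_cons (lt_zero_one _ _)
    · subst h1
      rcases a with _ | _
      · rcases lt_cons_cases h2 with ⟨h3, h4⟩ | ⟨h3, h4⟩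
        · subst h3
          subst h4
          exact lt_zero_one _ _
        · subst h3
          rcases b with _ | _
          · exact lt_cons h4
          · exact lt_cons (lt_cons h4)
      · exact lt_cons (lt_cons h2)

end Run7.h354.TF
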