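import Pool.Agent.N992.Rel

/-!
# Piece CL4 of project TF (helper919), main part
-/

set_option autoImplicit false

namespace Pool.Agent.Run7.h354.TF

open Finset Pool.Agent.N992

section

variable {ι : Type} [Fintype ι] [DecidableEq ι] {n : ι → ℕ} [∀ i, NeZero (n i)]

theorem inner4 (s : (∀ i, ZMod (n i)) → ℤ) (hs : PiDist n s) (i : ι) (h4 : n i = 4)
    (hco : ∀ k, k ≠ i → (n i).Coprime (n k)) :
    ∃ (u : (∀ i, ZMod (n i))ˣ), (∀ k, k ≠ i → (u : ∀ i, ZMod (n i)) k = 2) ∧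
      (∀ z : ∀ i, ZMod (n i), z i = 0 →
      ∑ j ∈ UU (n i), s (Function.update z i j) =
        s ((u : ∀ i, ZMod (n i)) * ((u : ∀ i, ZMod (n i)) * z)) - s ((u : ∀ i, ZMod (n i)) * z)) := by
  have hco2 : ∀ k, k ≠ i → (2 : ℕ).Coprime (n k) := by
    intro k hk
    have h := hco k hk
    rw [h4] at h
    exact Nat.Coprime.coprime_dvd_left (by norm_num) h
  obtain ⟨u, hu⟩ := exists_pi (n := n) i 2 hco2
  refine ⟨u, ?_, ?_⟩
  · intro k hk
    have h := congrFun (hu (Function.update 1 i 0) (by simp)) k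
    rw [Pi.smul_apply, Pi.mul_apply, Function.update_of_ne hk, Pi.one_apply, mul_one] at h
    rw [← h]
    simp
  intro z hz
  rw [sum_UU_four h4]
  have h1 := hs.four i h4 (Function.update z i 1)
  rw [Function.update_self, Function.update_idem] at h1
  rw [h1]
  have h2 : (2 : ℕ) • Function.update z i 1 = Function.update ((2 : ℕ) • z) i 2 := by
    funext k
    by_cases hk : k = i
    · subst hk
      simp
    · rw [Pi.smul_apply, Function.update_of_ne hk, Function.update_of_ne hk, Pi.smul_apply]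
  rw [h2]
  have h3 := hs.four i h4 ((2 : ℕ) • z)
  have h5 : ((2 : ℕ) • z) i = 0 := by rw [Pi.smul_apply, hz, smul_zero]
  rw [h5, zero_add] at h3
  have h6 : (2 : ℕ) • z = (u : ∀ i, ZMod (n i)) * z := hu z hz
  have h7 : (2 : ℕ) • ((2 : ℕ) • z) = (u : ∀ i, ZMod (n i)) * ((u : ∀ i, ZMod (n i)) * z) := by
    rw [hu _ h5, h6]
  rw [h7] at h3
  rw [← h6]
  rw [← h6] at h3
  linarith

theorem WW_four {χ : ∀ i, ZMod (n i) → ℤ} (hχ : ∀ i, IsChi (n i) (χ i))
    (s : (∀ i, ZMod (n i)) → ℤ) (hs : PiDist n s) {T' T : Finset ι} (hT : T' ⊆ T) {i : ι}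
    (hi : i ∉ T) (h4 : n i = 4) (hco : ∀ k, k ≠ i → (n i).Coprime (n k)) :
    ∃ (u : (∀ i, ZMod (n i))ˣ), (∀ k, k ≠ i → (u : ∀ i, ZMod (n i)) k = 2) ∧
      ∀ t, WW n χ s T' (insert i T) t =
        (1 - ∏ k ∈ T', χ k ((u : ∀ i, ZMod (n i)) k)) * WW n χ s T' T t := by
  have key : ∀ t : (∀ i, ZMod (n i))ˣ, WW n χ s T' (insert i T) t =
      ∑ y ∈ GG n T, (∏ k ∈ T', χ k (y k)) *
        ∑ j ∈ UU (n i), s (Function.update ((t : ∀ i, ZMod (n i)) * y) i j) := by
    intro t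
    unfold WW
    rw [sum_GG_insert n hi]
    refine sum_congr rfl ?_
    intro y _
    have hs1 := sum_UU_mul ((t : ∀ i, ZMod (n i)) i) (isUnit_apply n t i)
      (fun j => s (Function.update ((t : ∀ i, ZMod (n i)) * y) i j))
    rw [← hs1, mul_sum]
    refine sum_congr rfl ?_
    intro j _
    have e1 : ∏ k ∈ T', χ k (Function.update y i j k) = ∏ k ∈ T', χ k (y k) := by
      refine prod_congr rfl ?_
      intro k hk
      have hki : k ≠ i := fun h => hi (h ▸ hT hk)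
      rw [Function.update_of_ne hki]
    have e2 : (t : ∀ i, ZMod (n i)) * Function.update y i j =
        Function.update ((t : ∀ i, ZMod (n i)) * y) i ((t : ∀ i, ZMod (n i)) i * j) := by
      funext k
      by_cases hk : k = i
      · subst hk
        simp
      · rw [Pi.mul_apply, Function.update_of_ne hk, Function.update_of_ne hk, Pi.mul_apply]
    rw [e1, e2]
  obtain ⟨u, hu2, hu⟩ := inner4 s hs i h4 hco
  refine ⟨u, hu2, ?_⟩
  intro t
  rw [key t]
  have h1 := WW_twist hχ s hT u t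
  have h3 := WW_twist hχ s hT (u * u) t
  have h2 : ∑ y ∈ GG n T, (∏ k ∈ T', χ k (y k)) *
      ∑ j ∈ UU (n i), s (Function.update ((t : ∀ i, ZMod (n i)) * y) i j) =
      ∑ y ∈ GG n T, ((∏ k ∈ T', χ k (y k)) *
        s (((u * u : (∀ i, ZMod (n i))ˣ) : ∀ i, ZMod (n i)) * ((t : ∀ i, ZMod (n i)) * y)) -
        (∏ k ∈ T', χ k (y k)) *
          s ((u : ∀ i, ZMod (n i)) * ((t : ∀ i, ZMod (n i)) * y))) := by
    refine sum_congr rfl ?_
    intro y hy
    rw [hu _ (by rw [Pi.mul_apply, ((mem_GG n y).1 hy).2 i hi, mul_zero]), mul_sub]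
    rw [Units.val_mul, mul_assoc (u : ∀ i, ZMod (n i))]
  rw [h2, sum_sub_distrib, h1, h3]
  have h4 : ∏ k ∈ T', χ k (((u * u : (∀ i, ZMod (n i))ˣ) : ∀ i, ZMod (n i)) k) = 1 := by
    have : ∏ k ∈ T', χ k (((u * u : (∀ i, ZMod (n i))ˣ) : ∀ i, ZMod (n i)) k) =
        (∏ k ∈ T', χ k ((u : ∀ i, ZMod (n i)) k)) *
          ∏ k ∈ T', χ k ((u : ∀ i, ZMod (n i)) k) := by
      rw [← prod_mul_distrib]
      refine prod_congr rfl ?_
      intro k _
      rw [Units.val_mul, Pi.mul_apply]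
      exact (hχ k).mul _ _ (isUnit_apply n u k) (isUnit_apply n u k)
    rw [this]
    rcases prod_chi_val hχ T' u with h | h <;> rw [h] <;> norm_num
  rw [h4]
  ring

theorem sub_g (hn : Adm n) (hco : Pairwise (fun i j => (n i).Coprime (n j)))
    {χ : ∀ i, ZMod (n i) → ℤ} (hχ : ∀ i, IsChi (n i) (χ i))
    (s : (∀ i, ZMod (n i)) → ℤ) (hs : PiDist n s) (T' U : Finset ι) (hU : T' ⊆ U) :
    ∃ g ∈ AddSubgroup.closure {f | ∃ T : Finset ι, T ⊆ T' ∧ f = FF n s T},
      ∀ t, WW n χ s T' U t = 2 ^ U.card * g t := by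
  obtain ⟨e, he, he2⟩ := exists_g hn hco hχ s hs T'
  obtain ⟨A, hA⟩ := WW_chain hn hco hχ s hs T' (U \ T') disjoint_sdiff
  rw [union_sdiff_of_subset hU] at hA
  refine ⟨A • e, AddSubgroup.zsmul_mem _ he A, ?_⟩
  intro t
  rw [hA t, ← he2 t, Pi.smul_apply, smul_eq_mul, card_sdiff_of_subset hU]
  have h3 : U.card = (U.card - T'.card) + T'.card :=
    (Nat.sub_add_cancel (card_le_card hU)).symm
  have h4 : (2 : ℤ) ^ U.card = 2 ^ (U.card - T'.card) * 2 ^ T'.card := by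
    rw [← pow_add, ← h3]
  rw [h4]
  ring

theorem prod_two {χ : ∀ i, ZMod (n i) → ℤ} (hχ : ∀ i, IsChi (n i) (χ i)) {i4 : ι} {S : Finset ι}
    (hi : i4 ∉ S) (u : (∀ i, ZMod (n i))ˣ) (hu : ∀ k, k ≠ i4 → (u : ∀ i, ZMod (n i)) k = 2)
    (B : Finset ι) (hB : B ⊆ S) (hB2 : ∀ i ∈ S, i ∈ B ↔ ¬ IsSquare (2 : ZMod (n i)))
    (hodd : Odd B.card) : ∏ k ∈ S, χ k ((u : ∀ i, ZMod (n i)) k) = -1 := by
  have h1 : ∀ k ∈ S, χ k ((u : ∀ i, ZMod (n i)) k) = if k ∈ B then -1 else 1 := by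
    intro k hk
    have hk4 : k ≠ i4 := fun h => hi (h ▸ hk)
    have hun := isUnit_apply n u k
    have hm := (hχ k).mem _ hun
    rw [mem_Hf, hu k hk4] at hm
    rw [hu k hk4] at hun ⊢
    split_ifs with h
    · have hns := (hB2 k hk).1 h
      rcases (hχ k).val _ hun with h1 | h1
      · exact absurd (hm.2 h1).2 hns
      · exact h1
    · have hsq : IsSquare (2 : ZMod (n k)) := by
        by_contra hcon
        exact h ((hB2 k hk).2 hcon)
      exact hm.1 ⟨hun, hsq⟩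
  rw [prod_congr rfl h1, prod_ite, prod_const, prod_const_one, mul_one]
  have h2 : S.filter (fun k => k ∈ B) = B := by
    ext k
    rw [mem_filter]
    exact ⟨fun h => h.2, fun h => ⟨hB h, h⟩⟩
  rw [h2, hodd.neg_one_pow]

/-- CL4 -/
theorem cl4 (hn : Adm n) (hco : Pairwise (fun i j => (n i).Coprime (n j)))
    (s : (∀ i, ZMod (n i)) → ℤ) (hs : PiDist n s) (i4 : ι) (S : Finset ι) (h4 : n i4 = 4)
    (hi : i4 ∉ S) (hS : Odd S.card) (B : Finset ι) (hB : B ⊆ S)
    (hB2 : ∀ i ∈ S, i ∈ B ↔ ¬ IsSquare (2 : ZMod (n i))) (hodd : Odd B.card) :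
    FF n s (insert i4 S) - FF n s S ∈
    AddSubgroup.closure {f : (∀ i, ZMod (n i))ˣ → ℤ | ∃ T : Finset ι, T ⊂ insert i4 S ∧ T ≠ S ∧
      f = FF n s T} := by
  have hc : ∀ i, ∃ χ : ZMod (n i) → ℤ, IsChi (n i) χ := fun i => exists_chi (n i) (hn i)
  choose χ hχ using hc
  have hcard : (insert i4 S).card = S.card + 1 := card_insert_of_notMem hi
  obtain ⟨u, hu, hW⟩ := WW_four (n := n) hχ s hs (T' := S) (T := S) subset_rfl hi h4
    (fun k hk => hco hk.symm)
  rw [prod_two hχ hi u hu B hB hB2 hodd] at hW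
  -- (b)
  have hb : ∀ T' ∈ S.ssubsets, ∃ g ∈ AddSubgroup.closure
      {f | ∃ T : Finset ι, T ⊆ T' ∧ f = FF n s T}, ∀ t, WW n χ s T' S t = 2 ^ S.card * g t := by
    intro T' hT'
    rw [mem_ssubsets] at hT'
    exact sub_g hn hco hχ s hs T' S hT'.1
  choose! g hg hg2 using hb
  have hb2 : ∀ t, WW n χ s S S t = 2 ^ S.card * (FF n s S - ∑ T' ∈ S.ssubsets, g T') t := by
    intro t
    have h5 := FF_expand hχ s S t
    rw [← Finset.sum_erase_add _ _ (mem_powerset_self S)] at h5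
    have h6 : ∑ T' ∈ S.powerset.erase S, WW n χ s T' S t =
        2 ^ S.card * (∑ T' ∈ S.ssubsets, g T') t := by
      rw [Finset.sum_apply, mul_sum, Finset.ssubsets]
      refine sum_congr rfl ?_
      intro T' hT'
      exact hg2 T' hT' t
    rw [h6] at h5
    rw [Pi.sub_apply, mul_sub, h5]
    ring
  -- (c)
  have hc1 : ∀ T' ∈ (insert i4 S).ssubsets.erase S, ∃ g ∈ AddSubgroup.closure
      {f | ∃ T : Finset ι, T ⊆ T' ∧ f = FF n s T},
      ∀ t, WW n χ s T' (insert i4 S) t = 2 ^ (insert i4 S).card * g t := by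
    intro T' hT'
    rw [mem_erase, mem_ssubsets] at hT'
    exact sub_g hn hco hχ s hs T' _ hT'.2.1
  choose! g' hg' hg2' using hc1
  have hSins : S ∈ (insert i4 S).ssubsets := by
    rw [mem_ssubsets]
    exact ssubset_insert hi
  have hmain : FF n s (insert i4 S) =
      (FF n s S - ∑ T' ∈ S.ssubsets, g T') + ∑ T' ∈ (insert i4 S).ssubsets.erase S, g' T' := by
    funext t
    have h5 := FF_expand hχ s (insert i4 S) t
    rw [← Finset.sum_erase_add _ _ (mem_powerset_self (insert i4 S)),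
      WW_even hχ hs subset_rfl (by rw [hcard]; exact hS.add_one) t, add_zero] at h5
    have h6 : ∑ T' ∈ (insert i4 S).powerset.erase (insert i4 S), WW n χ s T' (insert i4 S) t =
        2 ^ (insert i4 S).card * ((FF n s S - ∑ T' ∈ S.ssubsets, g T') +
          ∑ T' ∈ (insert i4 S).ssubsets.erase S, g' T') t := by
      have h7 : (insert i4 S).powerset.erase (insert i4 S) = (insert i4 S).ssubsets := rfl
      rw [h7, ← Finset.sum_erase_add _ _ hSins, hW t, hb2 t, Pi.add_apply, mul_add,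
        Finset.sum_apply, mul_sum, hcard]
      have h8 : ∑ T' ∈ (insert i4 S).ssubsets.erase S, WW n χ s T' (insert i4 S) t =
          ∑ T' ∈ (insert i4 S).ssubsets.erase S, 2 ^ (S.card + 1) * g' T' t := by
        refine sum_congr rfl ?_
        intro T' hT'
        rw [hg2' T' hT' t, hcard]
      rw [h8, pow_succ]
      ring
    rw [h6] at h5
    have h7 : (2 : ℤ) ^ (insert i4 S).card ≠ 0 := pow_ne_zero _ (by norm_num)
    exact mul_left_cancel₀ h7 h5
  have hgoal : FF n s (insert i4 S) - FF n s S =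
      ∑ T' ∈ (insert i4 S).ssubsets.erase S, g' T' - ∑ T' ∈ S.ssubsets, g T' := by
    rw [hmain]
    abel
  rw [hgoal]
  refine AddSubgroup.sub_mem _ (AddSubgroup.sum_mem _ ?_) (AddSubgroup.sum_mem _ ?_)
  · intro T' hT'
    refine AddSubgroup.closure_mono ?_ (hg' T' hT')
    rintro f ⟨T, hT, rfl⟩
    rw [mem_erase, mem_ssubsets] at hT'
    refine ⟨T, lt_of_le_of_lt hT hT'.2, ?_, rfl⟩
    rintro rfl
    have h1 : T ⊂ T' := hT.ssubset_of_ne (Ne.symm hT'.1)
    have h2 := card_lt_card h1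
    have h3 := card_lt_card hT'.2
    omega
  · intro T' hT'
    refine AddSubgroup.closure_mono ?_ (hg T' hT')
    rintro f ⟨T, hT, rfl⟩
    rw [mem_ssubsets] at hT'
    have h1 : T ⊂ S := lt_of_le_of_lt hT hT'
    exact ⟨T, h1.trans (ssubset_insert hi), h1.ne, rfl⟩

end

end Pool.Agent.Run7.h354.TF
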