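import Pool.Agent.Run7.h919.TF.Iface2
import Pool.Agent.Run7.h354.TF.CL4a

/-!
# TF, piece CL4 (project of helper919)
-/

set_option autoImplicit false

namespace Pool.Agent.Run7.h354.TF

open Finset Pool.Agent.N992

theorem t_CL4 : Run7.h919.TF.S_CL4 := by
  intro ι _ _ n _ hn hco s hs i4 S h4 hi hS B hB hB2 hodd
  exact cl4 hn hco s hs i4 S h4 hi hS B hB hB2 hodd

end Pool.Agent.Run7.h354.TF
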