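import Pool.Agent.Run7.h664.FH.TDefs

/-!
# Project TF (helper664), piece LMEM (helper354)
-/

set_option autoImplicit false

namespace Run7.h354.TF

open Run7.h664.FH

lemma lt_cons {a : Bool} {c c' : C} (h : lt c c') : lt (cons a c) (cons a c') := by
  obtain ⟨n, h1, h2, h3⟩ := h
  refine ⟨n + 1, ?_, h2, h3⟩
  intro i hi
  cases i with
  | zero => rfl
  | succ i => exact h1 i (by omega)

lemma lt_cons_cases {a a' : Bool} {c c' : C} (h : lt (cons a c) (cons a' c')) :
    (a = false ∧ a' = true) ∨ (a = a' ∧ lt c c') := by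
  obtain ⟨n, h1, h2, h3⟩ := h
  cases n with
  | zero => exact Or.inl ⟨h2, h3⟩
  | succ n =>
    refine Or.inr ⟨h1 0 (Nat.succ_pos n), n, ?_, h2, h3⟩
    intro i hi
    exact h1 (i + 1) (by omega)

lemma LL_zero (b : Bool) (p : Equiv.Perm C) (a : Bool) (c : C) : LL b p (cons a c) 0 = a := by
  by_cases h : a = b
  · subst h
    rw [LL_same]
    rfl
  · rw [LL_other h]
    rfl

theorem t_LMEM : S_LMEM := by
  intro b p
  refine ⟨fun hp c => ?_, fun hp c c' hc => ?_⟩
  · obtain ⟨a, c1, rfl⟩ := cases_cons c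
    by_cases h : a = b
    · subst h
      obtain ⟨u, v, c', h1, h2⟩ := hp c1
      refine ⟨a :: u, a :: v, c', ?_, fun c'' => ?_⟩
      · rw [h1]
        rfl
      · change LL a p (cons a (pre u c'')) = cons a (pre v c'')
        rw [LL_same, h2]
    · exact ⟨[a], [a], c1, rfl, fun c'' => LL_other h p c''⟩
  · obtain ⟨a, c1, rfl⟩ := cases_cons c
    obtain ⟨a', c1', rfl⟩ := cases_cons c'
    rcases lt_cons_cases hc with ⟨h1, h2⟩ | ⟨h1, h2⟩
    · refine ⟨0, fun i hi => absurd hi (Nat.not_lt_zero i), ?_, ?_⟩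
      · rw [LL_zero]
        exact h1
      · rw [LL_zero]
        exact h2
    · subst h1
      by_cases h : a = b
      · subst h
        rw [LL_same, LL_same]
        exact lt_cons (hp _ _ h2)
      · rw [LL_other h, LL_other h]
        exact hc

end Run7.h354.TF
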